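import Mathlib

/-!
Chains with coefficients in `ZMod 2` on the finite subsets of a finite type, connectivity of simplicial complexes
(`Fill`), cones and the Mayer-Vietoris step.
-/

set_option autoImplicit false

namespace Pool.Agent.Helper51.TH

open Finset

variable {W : Type*} [Fintype W] [DecidableEq W]

/-- chains -/
abbrev Ch (W : Type*) := Finset W → ZMod 2

/-- the boundary -/
def bd (c : Ch W) : Ch W := fun σ => ∑ w ∈ univ \ σ, c (insert w σ)

/-- the chain `c` is supported on the faces of `F` with `k` elements -/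
def Supp (F : Finset W → Prop) (k : ℕ) (c : Ch W) : Prop := ∀ σ, c σ ≠ 0 → F σ ∧ σ.card = k

/-- the cycles with `k` elements bound -/
def Fill (F : Finset W → Prop) (k : ℕ) : Prop :=
  ∀ z : Ch W, Supp F k z → bd z = 0 → ∃ c : Ch W, Supp F (k + 1) c ∧ bd c = z

omit [Fintype W] [DecidableEq W] in
theorem two_zero (a : ZMod 2) : a + a = 0 := CharTwo.add_self_eq_zero a

theorem bd_add (c d : Ch W) : bd (c + d) = bd c + bd d := by
  funext σ
  simp only [bd, Pi.add_apply, sum_add_distrib]

theorem bd_sum {ι : Type*} (s : Finset ι) (c : ι → Ch W) : bd (∑ i ∈ s, c i) = ∑ i ∈ s, bd (c i) := by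
  classical
  induction s using Finset.induction with
  | empty =>
    funext σ
    simp [bd]
  | insert i s hi ih => rw [sum_insert hi, sum_insert hi, bd_add, ih]

theorem bd_bd (c : Ch W) : bd (bd c) = 0 := by
  funext σ
  show ∑ w ∈ univ \ σ, ∑ u ∈ univ \ insert w σ, c (insert u (insert w σ)) = 0
  rw [sum_sigma']
  refine sum_involution (fun p _ => ⟨p.2, p.1⟩) ?_ ?_ ?_ ?_
  · rintro ⟨w, u⟩ h
    simp only
    rw [insert_comm]
    exact two_zero _
  · rintro ⟨w, u⟩ h _ heq
    simp only [mem_sigma, mem_sdiff, mem_univ, true_and, mem_insert, not_or] at h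
    have : u = w := congrArg Sigma.fst heq
    exact h.2.1 this
  · rintro ⟨w, u⟩ h
    simp only [mem_sigma, mem_sdiff, mem_univ, true_and, mem_insert, not_or] at h ⊢
    exact ⟨h.2.2, fun he => h.2.1 he.symm, h.1⟩
  · rintro ⟨w, u⟩ h
    rfl

omit [Fintype W] [DecidableEq W] in
theorem Supp.add {F : Finset W → Prop} {k : ℕ} {c d : Ch W} (hc : Supp F k c) (hd : Supp F k d) :
    Supp F k (c + d) := by
  intro σ h
  by_cases h1 : c σ = 0
  · refine hd σ fun h2 => h ?_
    rw [Pi.add_apply, h1, h2, add_zero]
  · exact hc σ h1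

omit [Fintype W] [DecidableEq W] in
theorem Supp.mono {F G : Finset W → Prop} {k : ℕ} {c : Ch W} (hc : Supp F k c) (h : ∀ σ, F σ → G σ) :
    Supp G k c := fun σ hσ => ⟨h σ (hc σ hσ).1, (hc σ hσ).2⟩

omit [Fintype W] [DecidableEq W] in
theorem Supp.sum {F : Finset W → Prop} {k : ℕ} {ι : Type*} (s : Finset ι) (c : ι → Ch W)
    (h : ∀ i ∈ s, Supp F k (c i)) : Supp F k (∑ i ∈ s, c i) := by
  intro σ hσ
  rw [Finset.sum_apply] at hσ
  obtain ⟨i, hi, h2⟩ := exists_ne_zero_of_sum_ne_zero hσ
  exact h i hi σ h2

/-- a complex without faces -/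
theorem fill_of_empty {F : Finset W → Prop} (h : ∀ σ, ¬ F σ) (k : ℕ) : Fill F k := by
  intro z hz _
  refine ⟨0, fun σ hσ => absurd rfl hσ, ?_⟩
  have : z = 0 := by
    funext σ
    by_contra h1
    exact h σ (hz σ h1).1
  rw [this]
  funext σ
  simp [bd]

/-- a cone -/
theorem fill_of_cone {F : Finset W → Prop} (x : W) (hx : ∀ σ, F σ → F (insert x σ)) (k : ℕ) : Fill F k := by
  intro z hz hbz
  refine ⟨fun σ => if x ∈ σ then z (σ.erase x) else 0, ?_, ?_⟩
  · intro σ hσ
    simp only [ne_eq, ite_eq_right_iff, not_forall] at hσ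
    obtain ⟨h1, h2⟩ := hσ
    obtain ⟨h3, h4⟩ := hz _ h2
    refine ⟨?_, ?_⟩
    · have := hx _ h3
      rwa [insert_erase h1] at this
    · rw [← h4, card_erase_add_one h1]
  · funext σ
    show (∑ w ∈ univ \ σ, if x ∈ insert w σ then z ((insert w σ).erase x) else 0) = z σ
    by_cases h : x ∈ σ
    · have h1 : (∑ w ∈ univ \ σ, if x ∈ insert w σ then z ((insert w σ).erase x) else 0) =
          ∑ w ∈ univ \ σ, z (insert w (σ.erase x)) := by
        refine sum_congr rfl fun w hw => ?_
        rw [if_pos (mem_insert_of_mem h)]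
        congr 1
        rw [erase_insert_of_ne]
        rintro rfl
        exact (mem_sdiff.1 hw).2 h
      rw [h1]
      have h2 : bd z (σ.erase x) = 0 := by rw [hbz]; rfl
      have h3 : univ \ σ.erase x = insert x (univ \ σ) := by
        ext w
        simp only [mem_sdiff, mem_univ, true_and, mem_erase, mem_insert, not_and]
        constructor
        · intro h4
          by_cases h5 : w = x
          · exact Or.inl h5
          · exact Or.inr (h4 h5)
        · rintro (h4 | h4)
          · intro h5
            exact absurd h4 h5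
          · intro _
            exact h4
      have h4 : bd z (σ.erase x) = z σ + ∑ w ∈ univ \ σ, z (insert w (σ.erase x)) := by
        show ∑ w ∈ univ \ σ.erase x, z (insert w (σ.erase x)) = _
        rw [h3, sum_insert (by simp [h]), insert_erase h]
      rw [h4] at h2
      exact (CharTwo.add_eq_zero.1 h2).symm
    · rw [sum_eq_single x]
      · rw [if_pos (mem_insert_self x σ), erase_insert h]
      · intro w hw hwx
        rw [if_neg]
        rw [mem_insert, not_or]
        exact ⟨fun h1 => hwx h1.symm, h⟩
      · intro hx2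
        exact absurd (mem_sdiff.2 ⟨mem_univ x, h⟩) hx2

/-- the Mayer-Vietoris step: the deletion and the link of `v` -/
theorem fill_of_vertex {F : Finset W → Prop} (v : W) {k : ℕ}
    (h0 : Fill (fun σ => F σ ∧ v ∉ σ) k) (h1 : ∀ j, j + 1 = k → Fill (fun σ => F (insert v σ) ∧ v ∉ σ) j)
    (hd : ∀ σ, F (insert v σ) → F σ) : Fill F k := by
  intro z hz hbz
  -- the link part
  have key : ∃ c1 : Ch W, Supp (fun σ => F (insert v σ) ∧ v ∉ σ) k c1 ∧
      bd c1 = fun σ => if v ∈ σ then 0 else z (insert v σ) := by
    rcases Nat.eq_zero_or_pos k with hk | hk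
    · refine ⟨0, fun σ hσ => absurd rfl hσ, ?_⟩
      funext σ
      have : bd (0 : Ch W) σ = 0 := by simp [bd]
      rw [this]
      split_ifs with h
      · rfl
      · by_contra h2
        have h3 := (hz _ (Ne.symm h2)).2
        rw [card_insert_of_notMem h] at h3
        omega
    · obtain ⟨j, rfl⟩ : ∃ j, k = j + 1 := ⟨k - 1, by omega⟩
      refine h1 j rfl _ ?_ ?_
      · intro σ hσ
        simp only [ne_eq, ite_eq_left_iff, not_forall] at hσ
        obtain ⟨h2, h3⟩ := hσ
        obtain ⟨h4, h5⟩ := hz _ h3
        rw [card_insert_of_notMem h2] at h5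
        exact ⟨⟨h4, h2⟩, by omega⟩
      · funext σ
        show (∑ w ∈ univ \ σ, if v ∈ insert w σ then 0 else z (insert v (insert w σ))) = 0
        by_cases h : v ∈ σ
        · refine sum_eq_zero fun w _ => ?_
          rw [if_pos (mem_insert_of_mem h)]
        · have h2 : bd z (insert v σ) = 0 := by rw [hbz]; rfl
          refine Eq.trans ?_ h2
          show _ = ∑ w ∈ univ \ insert v σ, z (insert w (insert v σ))
          have h3 : univ \ insert v σ = (univ \ σ).erase v := by
            ext w
            simp only [mem_sdiff, mem_univ, true_and, mem_insert, not_or, mem_erase]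
          rw [h3, ← add_sum_erase (univ \ σ) _ (mem_sdiff.2 ⟨mem_univ v, h⟩), if_pos (mem_insert_self v σ), zero_add]
          refine sum_congr rfl fun w hw => ?_
          rw [mem_erase] at hw
          rw [if_neg, insert_comm]
          rw [mem_insert, not_or]
          exact ⟨fun h4 => hw.1 h4.symm, h⟩
  obtain ⟨c1, hc1, hbc1⟩ := key
  set c1' : Ch W := fun σ => if v ∈ σ then c1 (σ.erase v) else 0 with hc1'
  have hs1 : Supp F (k + 1) c1' := by
    intro σ hσ
    simp only [hc1', ne_eq, ite_eq_right_iff, not_forall] at hσ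
    obtain ⟨h2, h3⟩ := hσ
    obtain ⟨⟨h4, _⟩, h5⟩ := hc1 _ h3
    rw [insert_erase h2] at h4
    exact ⟨h4, by rw [← h5, card_erase_add_one h2]⟩
  have hb1 : ∀ σ, bd c1' σ = if v ∈ σ then z σ else c1 σ := by
    intro σ
    show (∑ w ∈ univ \ σ, if v ∈ insert w σ then c1 ((insert w σ).erase v) else 0) = _
    by_cases h : v ∈ σ
    · rw [if_pos h]
      have h2 : (∑ w ∈ univ \ σ, if v ∈ insert w σ then c1 ((insert w σ).erase v) else 0) =
          ∑ w ∈ univ \ σ, c1 (insert w (σ.erase v)) := by
        refine sum_congr rfl fun w hw => ?_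
        rw [if_pos (mem_insert_of_mem h), erase_insert_of_ne]
        rintro rfl
        exact (mem_sdiff.1 hw).2 h
      rw [h2]
      have h3 : bd c1 (σ.erase v) = z σ := by
        rw [hbc1]
        simp only
        rw [if_neg (notMem_erase v σ), insert_erase h]
      rw [← h3]
      show _ = ∑ w ∈ univ \ σ.erase v, c1 (insert w (σ.erase v))
      have h4 : univ \ σ.erase v = insert v (univ \ σ) := by
        ext w
        simp only [mem_sdiff, mem_univ, true_and, mem_erase, mem_insert, not_and]
        constructor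
        · intro h4
          by_cases h5 : w = v
          · exact Or.inl h5
          · exact Or.inr (h4 h5)
        · rintro (h4 | h4)
          · intro h5
            exact absurd h4 h5
          · intro _
            exact h4
      rw [h4, sum_insert (by simp [h]), insert_erase h]
      have h5 : c1 σ = 0 := by
        by_contra h6
        exact (hc1 σ h6).1.2 h
      rw [h5, zero_add]
    · rw [if_neg h, sum_eq_single v]
      · rw [if_pos (mem_insert_self v σ), erase_insert h]
      · intro w hw hwx
        rw [if_neg]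
        rw [mem_insert, not_or]
        exact ⟨fun h1 => hwx h1.symm, h⟩
      · intro hx2
        exact absurd (mem_sdiff.2 ⟨mem_univ v, h⟩) hx2
  obtain ⟨c0, hc0, hbc0⟩ := h0 (z + bd c1') (by
    intro σ hσ
    rw [Pi.add_apply, hb1] at hσ
    by_cases h : v ∈ σ
    · rw [if_pos h, two_zero] at hσ
      exact absurd rfl hσ
    · rw [if_neg h] at hσ
      by_cases h2 : z σ = 0
      · rw [h2, zero_add] at hσ
        obtain ⟨⟨h3, _⟩, h4⟩ := hc1 σ hσ
        exact ⟨⟨hd σ h3, h⟩, h4⟩
      · obtain ⟨h3, h4⟩ := hz σ h2
        exact ⟨⟨h3, h⟩, h4⟩) (by rw [bd_add, bd_bd, hbz, add_zero])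
  refine ⟨c0 + c1', (hc0.mono fun σ h => h.1).add hs1, ?_⟩
  rw [bd_add, hbc0]
  funext σ
  rw [Pi.add_apply, Pi.add_apply, add_assoc, two_zero, add_zero]

/-- the game: the vertices in `O` are deleted or exploded one after the other -/
theorem fill_of_game {F : Finset W → Prop} (hF : ∀ σ τ, F σ → τ ⊆ σ → F τ) (O : Finset W) (m : ℕ)
    (h : ∀ D ⊆ O, ∀ k, k + D.card < m → Fill (fun σ => Disjoint σ O ∧ F (σ ∪ D)) k) (k : ℕ) (hk : k < m) :
    Fill F k := by
  have key : ∀ R : Finset W, R ⊆ O → ∀ D ⊆ O \ R, ∀ k, k + D.card < m →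
      Fill (fun σ => Disjoint σ (O \ R) ∧ F (σ ∪ D)) k := by
    intro R
    induction R using Finset.induction with
    | empty =>
      intro _ D hD k hk
      rw [sdiff_empty] at hD ⊢
      exact h D hD k hk
    | insert v R hv ih =>
      intro hR D hD k hk
      have hvO : v ∈ O := hR (mem_insert_self v R)
      have hRO : R ⊆ O := fun x hx => hR (mem_insert_of_mem hx)
      have hsub : O \ insert v R ⊆ O \ R := sdiff_subset_sdiff le_rfl (subset_insert v R)
      have hvR : v ∈ O \ R := mem_sdiff.2 ⟨hvO, hv⟩
      have hins : insert v (O \ insert v R) = O \ R := by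
        ext w
        simp only [mem_insert, mem_sdiff, not_or]
        constructor
        · rintro (h1 | h1)
          · rw [h1]; exact ⟨hvO, hv⟩
          · exact ⟨h1.1, h1.2.2⟩
        · rintro ⟨h1, h2⟩
          by_cases h3 : w = v
          · exact Or.inl h3
          · exact Or.inr ⟨h1, h3, h2⟩
      have hdis : ∀ σ : Finset W, Disjoint σ (O \ R) ↔ Disjoint σ (O \ insert v R) ∧ v ∉ σ := by
        intro σ
        rw [← hins, disjoint_insert_right]
        tauto
      refine fill_of_vertex v ?_ ?_ ?_
      · have h1 := ih hRO D (hD.trans hsub) k hk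
        convert h1 using 2 with σ
        rw [hdis]
        tauto
      · intro j hj
        have hvD : v ∉ D := fun h2 => by
          have := hD h2
          simp at this
        have h1 := ih hRO (insert v D) (by rw [← hins]; exact insert_subset_insert v hD) j (by
          rw [card_insert_of_notMem hvD]
          omega)
        convert h1 using 2 with σ
        rw [hdis, disjoint_insert_left]
        have h2 : insert v σ ∪ D = σ ∪ insert v D := by
          ext x
          simp only [mem_union, mem_insert]
          tauto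
        rw [h2]
        have h3 : v ∉ O \ insert v R := by simp
        tauto
      · rintro σ ⟨h1, h2⟩
        rw [disjoint_insert_left] at h1
        exact ⟨h1.2, hF _ _ h2 (union_subset_union_left (subset_insert v σ))⟩
  have h1 := key O le_rfl ∅ (empty_subset _) k (by rw [card_empty]; omega)
  convert h1 using 2 with σ
  rw [sdiff_self, union_empty]
  simp

end Pool.Agent.Helper51.TH
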