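import Pool.Agent.Helper51.TH.Chain

/-!
The topological version of Hall's theorem, for the sets `{v} × κ`, with coefficients in `ZMod 2`.
-/

set_option autoImplicit false

namespace Pool.Agent.Helper51.TH

open Finset

variable {V κ : Type*} [Fintype V] [DecidableEq V] [Fintype κ] [DecidableEq κ]

/-- the faces over `I` -/
def Over (F : Finset (V × κ) → Prop) (I : Finset V) (S : Finset (V × κ)) : Prop := F S ∧ ∀ p ∈ S, p.1 ∈ I

/-- the graph of `χ` over `I` -/
def gr (I : Finset V) (χ : V → κ) : Finset (V × κ) := I.image fun v => (v, χ v)

omit [Fintype V] [Fintype κ] in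
theorem mem_gr {I : Finset V} {χ : V → κ} {p : V × κ} : p ∈ gr I χ ↔ p.1 ∈ I ∧ p.2 = χ p.1 := by
  unfold gr
  rw [mem_image]
  constructor
  · rintro ⟨v, hv, rfl⟩
    exact ⟨hv, rfl⟩
  · rintro ⟨h1, h2⟩
    exact ⟨p.1, h1, by rw [← h2]⟩

/-- the carrier chains -/
theorem exists_chains {F : Finset (V × κ) → Prop} (h0 : F ∅)
    (hfill : ∀ I : Finset V, I.Nonempty → Fill (Over F I) (I.card - 1)) (n : ℕ) :
    ∃ f : Finset V → Ch (V × κ), f ∅ = Pi.single ∅ 1 ∧
      ∀ I, I.card ≤ n → Supp (Over F I) I.card (f I) ∧ bd (f I) = ∑ i ∈ I, f (I.erase i) := by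
  classical
  have hb0 : bd (Pi.single (∅ : Finset (V × κ)) (1 : ZMod 2)) = 0 := by
    funext σ
    refine sum_eq_zero fun w _ => ?_
    rw [Pi.single_eq_of_ne (insert_ne_empty w σ)]
  induction n with
  | zero =>
    refine ⟨fun I => if I = ∅ then Pi.single ∅ 1 else 0, by simp, fun I hI => ?_⟩
    rw [Nat.le_zero, card_eq_zero] at hI
    subst hI
    simp only [if_true]
    refine ⟨?_, by simp [hb0]⟩
    intro σ hσ
    by_cases h1 : σ = ∅
    · subst h1
      exact ⟨⟨h0, by simp⟩, rfl⟩
    · rw [Pi.single_eq_of_ne h1] at hσ
      exact absurd rfl hσ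
  | succ n ih =>
    obtain ⟨f, hf0, hf⟩ := ih
    have hstep : ∀ I : Finset V, I.card = n + 1 → ∃ c : Ch (V × κ), Supp (Over F I) I.card c ∧
        bd c = ∑ i ∈ I, f (I.erase i) := by
      intro I hI
      have hne : I.Nonempty := by
        rw [← card_pos]
        omega
      have hcard : ∀ i ∈ I, (I.erase i).card = n := fun i hi => by
        rw [card_erase_of_mem hi]
        omega
      obtain ⟨c, hc, hbc⟩ := hfill I hne (∑ i ∈ I, f (I.erase i)) (by
        refine Supp.sum _ _ fun i hi => ?_
        have h1 := (hf (I.erase i) (by rw [hcard i hi])).1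
        rw [hcard i hi] at h1
        rw [hI, Nat.add_sub_cancel]
        exact h1.mono fun σ h => ⟨h.1, fun p hp => mem_of_mem_erase (h.2 p hp)⟩) (by
        rw [bd_sum]
        have h1 : ∀ i ∈ I, bd (f (I.erase i)) = ∑ j ∈ I.erase i, f ((I.erase i).erase j) := fun i hi =>
          (hf (I.erase i) (by rw [hcard i hi])).2
        rw [sum_congr rfl h1, sum_sigma']
        refine sum_involution (fun p _ => ⟨p.2, p.1⟩) ?_ ?_ ?_ ?_
        · rintro ⟨i, j⟩ h
          simp only
          rw [erase_right_comm]
          funext σ
          exact two_zero _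
        · rintro ⟨i, j⟩ h _ heq
          simp only [mem_sigma, mem_erase] at h
          have : j = i := congrArg Sigma.fst heq
          exact h.2.1 this
        · rintro ⟨i, j⟩ h
          simp only [mem_sigma, mem_erase] at h ⊢
          exact ⟨h.2.2, fun he => h.2.1 he.symm, h.1⟩
        · rintro ⟨i, j⟩ h
          rfl)
      refine ⟨c, ?_, hbc⟩
      have h1 : I.card - 1 + 1 = I.card := by omega
      rw [h1] at hc
      exact hc
    choose g hg using hstep
    refine ⟨fun I => if h : I.card = n + 1 then g I h else f I, ?_, fun I hI => ?_⟩
    · simp only [card_empty]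
      rw [dif_neg (by omega), hf0]
    · have herase : ∑ i ∈ I, (if h : (I.erase i).card = n + 1 then g (I.erase i) h else f (I.erase i)) =
          ∑ i ∈ I, f (I.erase i) := by
        refine sum_congr rfl fun i hi => ?_
        rw [dif_neg]
        rw [card_erase_of_mem hi]
        have : 0 < I.card := card_pos.2 ⟨i, hi⟩
        omega
      simp only
      rw [herase]
      by_cases h : I.card = n + 1
      · rw [dif_pos h]
        exact hg I h
      · rw [dif_neg h]
        exact hf I (by omega)

/-- the functions on `I`, with the value `k₀` outside -/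
def Pif (k₀ : κ) (I : Finset V) : Finset (V → κ) := univ.filter fun χ => ∀ v, v ∉ I → χ v = k₀

theorem mem_Pif {k₀ : κ} {I : Finset V} {χ : V → κ} : χ ∈ Pif k₀ I ↔ ∀ v, v ∉ I → χ v = k₀ := by
  simp [Pif]

/-- **the topological Hall theorem** -/
theorem hall [Nonempty κ] {F : Finset (V × κ) → Prop} (h0 : F ∅)
    (hfill : ∀ I : Finset V, I.Nonempty → Fill (Over F I) (I.card - 1)) :
    ∃ χ : V → κ, F (gr univ χ) := by
  classical
  obtain ⟨k₀⟩ := (inferInstance : Nonempty κ)
  obtain ⟨f, hf0, hf⟩ := exists_chains h0 hfill (Fintype.card V)
  have hcardle : ∀ I : Finset V, I.card ≤ Fintype.card V := fun I => card_le_univ I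
  have key : ∀ I : Finset V, ∑ χ ∈ Pif k₀ I, f I (gr I χ) = 1 := by
    intro I
    induction I using Finset.induction with
    | empty =>
      have h1 : Pif k₀ (∅ : Finset V) = {fun _ => k₀} := by
        ext χ
        rw [mem_Pif, mem_singleton]
        constructor
        · intro h
          funext v
          exact h v (notMem_empty v)
        · rintro rfl v _
          rfl
      rw [h1, sum_singleton, hf0]
      have h2 : gr (∅ : Finset V) (fun _ => k₀) = ∅ := by simp [gr]
      rw [h2, Pi.single_eq_same]
    | insert i J hi ih =>
      obtain ⟨hs, hb⟩ := hf (insert i J) (hcardle _)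
      set c := f (insert i J) with hc
      have hzero : ∀ w : V × κ, ∀ S : Finset (V × κ), w.1 ∉ insert i J → c (insert w S) = 0 := by
        intro w S hw
        by_contra h1
        exact hw ((hs _ h1).1.2 w (mem_insert_self w S))
      -- left side
      have hL : ∑ χ ∈ Pif k₀ J, bd c (gr J χ) = 1 := by
        rw [← ih]
        refine sum_congr rfl fun χ _ => ?_
        rw [hb, Finset.sum_apply, sum_insert hi, erase_insert hi]
        rw [sum_eq_zero, add_zero]
        intro j hj
        by_contra h1
        have h2 := (hf ((insert i J).erase j) (hcardle _)).1 _ h1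
        have h3 := h2.1.2 (j, χ j) (mem_gr.2 ⟨hj, rfl⟩)
        simp at h3
      -- splitting of the sum
      have hsplit : ∀ χ : V → κ, bd c (gr J χ) = (∑ l : κ, c (insert (i, l) (gr J χ))) +
          ∑ p ∈ (J ×ˢ (univ : Finset κ)).filter (fun p => p.2 ≠ χ p.1), c (insert p (gr J χ)) := by
        intro χ
        have h1 : ∑ l : κ, c (insert (i, l) (gr J χ)) =
            ∑ p ∈ (univ \ gr J χ).filter (fun p => p.1 = i), c (insert p (gr J χ)) := by
          refine sum_bij' (fun l _ => (i, l)) (fun p _ => p.2) ?_ ?_ ?_ ?_ ?_
          · intro l _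
            rw [mem_filter, mem_sdiff, mem_gr]
            exact ⟨⟨mem_univ _, fun h => hi h.1⟩, rfl⟩
          · intro p _
            exact mem_univ _
          · intro l _
            rfl
          · intro p hp
            rw [mem_filter] at hp
            exact Prod.ext hp.2.symm rfl
          · intro l _
            rfl
        have h2 : ∑ p ∈ (J ×ˢ (univ : Finset κ)).filter (fun p => p.2 ≠ χ p.1), c (insert p (gr J χ)) =
            ∑ p ∈ (univ \ gr J χ).filter (fun p => ¬ p.1 = i), c (insert p (gr J χ)) := by
          refine sum_subset ?_ ?_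
          · intro p hp
            simp only [mem_filter, mem_product, mem_univ, and_true] at hp
            rw [mem_filter, mem_sdiff, mem_gr]
            refine ⟨⟨mem_univ _, fun h => hp.2 h.2⟩, ?_⟩
            intro h
            exact hi (h ▸ hp.1)
          · intro p hp hp2
            rw [mem_filter, mem_sdiff, mem_gr] at hp
            simp only [mem_filter, mem_product, mem_univ, and_true, not_and, not_not] at hp2
            refine hzero p _ ?_
            rw [mem_insert, not_or]
            refine ⟨hp.2, fun h => ?_⟩
            exact hp.1.2 ⟨h, hp2 h⟩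
        rw [h1, h2, sum_filter_add_sum_filter_not]
        rfl
      -- the second part vanishes
      have hR : ∑ χ ∈ Pif k₀ J, ∑ p ∈ (J ×ˢ (univ : Finset κ)).filter (fun p => p.2 ≠ χ p.1),
          c (insert p (gr J χ)) = 0 := by
        rw [sum_sigma']
        refine sum_involution (fun q _ => ⟨Function.update q.1 q.2.1 q.2.2, (q.2.1, q.1 q.2.1)⟩) ?_ ?_ ?_ ?_
        · rintro ⟨χ, u, l⟩ h
          simp only [mem_sigma, mem_filter, mem_product, mem_univ, and_true] at h
          have h1 : insert (u, χ u) (gr J (Function.update χ u l)) = insert (u, l) (gr J χ) := by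
            ext ⟨a, b⟩
            rw [mem_insert, mem_insert, mem_gr, mem_gr]
            simp only [Prod.mk.injEq]
            by_cases ha : a = u
            · subst ha
              rw [Function.update_self]
              have := h.2.1
              tauto
            · rw [Function.update_of_ne ha]
              tauto
          simp only
          rw [h1]
          exact two_zero _
        · rintro ⟨χ, u, l⟩ h _ heq
          simp only [mem_sigma, mem_filter, mem_product, mem_univ, and_true] at h
          have h1 := congrArg (fun q => q.2.2) heq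
          simp only at h1
          exact h.2.2 h1.symm
        · rintro ⟨χ, u, l⟩ h
          simp only [mem_sigma, mem_filter, mem_product, mem_univ, and_true, mem_Pif] at h ⊢
          refine ⟨fun v hv => ?_, h.2.1, ?_⟩
          · rw [Function.update_of_ne]
            · exact h.1 v hv
            · rintro rfl
              exact hv h.2.1
          · rw [Function.update_self]
            exact fun h1 => h.2.2 h1.symm
        · rintro ⟨χ, u, l⟩ h
          simp only [Function.update_idem, Function.update_eq_self, Function.update_self]
      -- the first part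
      have hM : ∑ χ ∈ Pif k₀ J, ∑ l : κ, c (insert (i, l) (gr J χ)) =
          ∑ χ ∈ Pif k₀ (insert i J), c (gr (insert i J) χ) := by
        rw [← sum_product']
        refine sum_bij' (fun q _ => Function.update q.1 i q.2) (fun χ _ => (Function.update χ i k₀, χ i))
          ?_ ?_ ?_ ?_ ?_
        · rintro ⟨χ, l⟩ h
          simp only [mem_product, mem_univ, and_true, mem_Pif] at h ⊢
          intro v hv
          rw [mem_insert, not_or] at hv
          rw [Function.update_of_ne hv.1]
          exact h v hv.2
        · intro χ h
          simp only [mem_product, mem_univ, and_true, mem_Pif] at h ⊢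
          intro v hv
          by_cases h1 : v = i
          · rw [h1, Function.update_self]
          · rw [Function.update_of_ne h1]
            exact h v (by rw [mem_insert, not_or]; exact ⟨h1, hv⟩)
        · rintro ⟨χ, l⟩ h
          simp only [mem_product, mem_univ, and_true, mem_Pif] at h
          simp only [Function.update_idem, Function.update_self, Prod.mk.injEq, and_true]
          rw [← h i hi, Function.update_eq_self]
        · intro χ h
          simp only [Function.update_idem, Function.update_eq_self]
        · rintro ⟨χ, l⟩ h
          simp only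
          congr 1
          ext ⟨a, b⟩
          rw [mem_insert, mem_gr, mem_gr, mem_insert]
          simp only [Prod.mk.injEq]
          by_cases ha : a = i
          · subst ha
            rw [Function.update_self]
            tauto
          · rw [Function.update_of_ne ha]
            tauto
      rw [← hM, ← hL, sum_congr rfl fun χ _ => hsplit χ, sum_add_distrib, hR, add_zero]
  have h1 := key univ
  have h2 : ∑ χ ∈ Pif k₀ (univ : Finset V), f univ (gr univ χ) ≠ 0 := by
    rw [h1]
    exact one_ne_zero
  obtain ⟨χ, _, h3⟩ := exists_ne_zero_of_sum_ne_zero h2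
  exact ⟨χ, ((hf univ (hcardle _)).1 _ h3).1.1⟩

end Pool.Agent.Helper51.TH
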