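import Pool.Agent.Helper51.TH.Hall

/-!
A covering theorem for submodular functions: if every `X` contains a set `P` with `|B| ≤ h B` for all `B ⊆ P` and with
`c |X| ≤ |P|`, then the ground set is a union of boundedly many sets on which `h B ≥ (1 - ε) |B|`.
-/

set_option autoImplicit false

namespace Pool.Agent.Helper51.TH

open Finset

variable {V κ : Type*} [Fintype V] [DecidableEq V] [Fintype κ] [DecidableEq κ]

/-- all subsets of `A` satisfy `(1 - ε) |B| ≤ h B` -/
def Dense (h : Finset V → ℝ) (ε : ℝ) (A : Finset V) : Prop := ∀ B ⊆ A, (1 - ε) * (B.card : ℝ) ≤ h B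

/-- the class of the color `k` -/
def cls (S : Finset (V × κ)) (k : κ) : Finset V := (S.filter fun p => p.2 = k).image Prod.fst

omit [Fintype V] [Fintype κ] in
theorem mem_cls {S : Finset (V × κ)} {k : κ} {v : V} : v ∈ cls S k ↔ (v, k) ∈ S := by
  unfold cls
  rw [mem_image]
  constructor
  · rintro ⟨⟨a, b⟩, h1, rfl⟩
    rw [mem_filter] at h1
    obtain ⟨h1, rfl⟩ := h1
    exact h1
  · intro h
    exact ⟨(v, k), mem_filter.2 ⟨h, rfl⟩, rfl⟩

omit [Fintype V] in
theorem sum_card_cls (S : Finset (V × κ)) : ∑ k, (cls S k).card = S.card := by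
  have h1 : ∀ k, (cls S k).card = (S.filter fun p => p.2 = k).card := by
    intro k
    unfold cls
    refine card_image_of_injOn ?_
    rintro ⟨a, b⟩ h1 ⟨a', b'⟩ h2 h3
    rw [mem_coe, mem_filter] at h1 h2
    simp only at h1 h2 h3
    rw [Prod.mk.injEq]
    exact ⟨h3, by rw [h1.2, h2.2]⟩
  rw [sum_congr rfl fun k _ => h1 k]
  exact (card_eq_sum_card_fiberwise (fun p _ => mem_univ p.2)).symm

/-- **the covering theorem** -/
theorem cover (h : Finset V → ℝ) (h0 : h ∅ = 0) (hmono : ∀ A B, A ⊆ B → h A ≤ h B)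
    (hsub : ∀ A B, h (A ∪ B) + h (A ∩ B) ≤ h A + h B) (ε c : ℝ) (hε : 0 < ε) (hε1 : ε < 1)
    (hK : 1 - ε ≤ Fintype.card κ * (ε * c))
    (hP : ∀ X : Finset V, ∃ P ⊆ X, (∀ B ⊆ P, (B.card : ℝ) ≤ h B) ∧ c * (X.card : ℝ) ≤ (P.card : ℝ)) :
    ∃ χ : V → κ, ∀ (k : κ) (B : Finset V), (∀ v ∈ B, χ v = k) → (1 - ε) * (B.card : ℝ) ≤ h B := by
  classical
  have hne : Nonempty κ := by
    by_contra hno
    rw [not_nonempty_iff] at hno
    rw [Fintype.card_eq_zero, Nat.cast_zero, zero_mul] at hK
    linarith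
  set F : Finset (V × κ) → Prop := fun S => ∀ k, Dense h ε (cls S k) with hFdef
  have hFdown : ∀ σ τ, F σ → τ ⊆ σ → F τ := by
    intro σ τ h1 h2 k B hB
    exact h1 k B fun v hv => mem_cls.2 (h2 (mem_cls.1 (hB hv)))
  have hF0 : F ∅ := by
    intro k B hB
    have : B = ∅ := by
      rw [← subset_empty]
      intro v hv
      have := mem_cls.1 (hB hv)
      simp at this
    rw [this, card_empty, Nat.cast_zero, mul_zero, h0]
  obtain ⟨χ, hχ⟩ := hall (F := F) hF0 (by
    intro I hI
    obtain ⟨P, hPI, hPd, hPc⟩ := hP I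
    have hdown : ∀ σ τ, Over F I σ → τ ⊆ σ → Over F I τ := fun σ τ h1 h2 =>
      ⟨hFdown σ τ h1.1 h2, fun p hp => h1.2 p (h2 hp)⟩
    set O : Finset (V × κ) := (I \ P) ×ˢ univ with hO
    refine fill_of_game hdown O I.card ?_ (I.card - 1) (by have := hI.card_pos; omega)
    intro D hDO k hk
    -- a color in which few elements were exploded
    have hcol : ∃ k₀ : κ, (1 - ε) * ((cls D k₀).card : ℝ) < ε * (P.card : ℝ) := by
      by_contra hno
      push Not at hno
      have h1 : ∑ k : κ, ε * (P.card : ℝ) ≤ ∑ k : κ, (1 - ε) * ((cls D k).card : ℝ) :=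
        sum_le_sum fun k _ => hno k
      rw [sum_const, card_univ, nsmul_eq_mul, ← mul_sum] at h1
      have h2 : (∑ k : κ, ((cls D k).card : ℝ)) = (D.card : ℝ) := by
        rw [← sum_card_cls D]
        push_cast
        rfl
      rw [h2] at h1
      have h3 : (Fintype.card κ : ℝ) * (ε * c) * (I.card : ℝ) ≤ (Fintype.card κ : ℝ) * (ε * (P.card : ℝ)) := by
        have : (Fintype.card κ : ℝ) * (ε * c) * (I.card : ℝ) = (Fintype.card κ : ℝ) * (ε * (c * (I.card : ℝ))) := by
          ring
        rw [this]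
        exact mul_le_mul_of_nonneg_left (mul_le_mul_of_nonneg_left hPc hε.le) (Nat.cast_nonneg _)
      have h4 : (1 - ε) * (I.card : ℝ) ≤ (Fintype.card κ : ℝ) * (ε * c) * (I.card : ℝ) :=
        mul_le_mul_of_nonneg_right hK (Nat.cast_nonneg _)
      have h5 : (1 - ε) * (I.card : ℝ) ≤ (1 - ε) * (D.card : ℝ) := by linarith
      have h6 : (I.card : ℝ) ≤ (D.card : ℝ) := le_of_mul_le_mul_left h5 (by linarith)
      have h7 : I.card ≤ D.card := by exact_mod_cast h6
      omega
    obtain ⟨k₀, hk₀⟩ := hcol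
    set Dk := cls D k₀ with hDk
    -- the core
    obtain ⟨C, hC1, hC2⟩ := exists_max_image (P ∪ Dk).powerset (fun B => (1 - ε) * (B.card : ℝ) - h B)
      ⟨∅, empty_mem_powerset _⟩
    rw [mem_powerset] at hC1
    have hC0 : 0 ≤ (1 - ε) * (C.card : ℝ) - h C := by
      have := hC2 ∅ (empty_mem_powerset _)
      rw [card_empty, Nat.cast_zero, mul_zero, h0, sub_zero] at this
      exact this
    have hx : ∃ x ∈ P, x ∉ C := by
      by_contra hno
      push Not at hno
      have hPC : P ⊆ C := hno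
      have h1 : (P.card : ℝ) ≤ h C := (hPd P le_rfl).trans (hmono _ _ hPC)
      have h2 : (C.card : ℝ) ≤ (P.card : ℝ) + (Dk.card : ℝ) := by
        exact_mod_cast (card_le_card hC1).trans (card_union_le P Dk)
      have h3 : (1 - ε) * (C.card : ℝ) ≤ (1 - ε) * ((P.card : ℝ) + (Dk.card : ℝ)) :=
        mul_le_mul_of_nonneg_left h2 (by linarith)
      nlinarith
    obtain ⟨x, hxP, hxC⟩ := hx
    refine fill_of_cone (x, k₀) ?_ k
    rintro σ ⟨hσ1, hσ2, hσ3⟩
    have hsubI : ∀ p ∈ σ, p.1 ∈ P := by
      intro p hp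
      by_contra h1
      have h2 : p ∈ O := by
        rw [hO, mem_product, mem_sdiff]
        exact ⟨⟨hσ3 p (mem_union_left D hp), h1⟩, mem_univ _⟩
      exact disjoint_left.1 hσ1 hp h2
    refine ⟨?_, ?_, ?_⟩
    · rw [disjoint_insert_left]
      refine ⟨?_, hσ1⟩
      rw [hO, mem_product, mem_sdiff]
      exact fun h1 => h1.1.2 hxP
    · intro k' B hB
      by_cases hxB : x ∈ B ∧ k' = k₀
      · obtain ⟨hxB, rfl⟩ := hxB
        by_contra hlt
        push Not at hlt
        have hBsub : B ⊆ P ∪ Dk := by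
          intro v hv
          have h1 := mem_cls.1 (hB hv)
          rw [mem_union, mem_insert] at h1
          rcases h1 with (h1 | h1) | h1
          · rw [Prod.mk.injEq] at h1
            rw [h1.1]
            exact mem_union_left _ hxP
          · exact mem_union_left _ (hsubI _ h1)
          · exact mem_union_right _ (mem_cls.2 h1)
        have hBC : (1 - ε) * ((B ∩ C).card : ℝ) ≤ h (B ∩ C) := by
          refine hσ2 k' _ fun v hv => ?_
          rw [mem_inter] at hv
          have h1 := mem_cls.1 (hB hv.1)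
          rw [mem_union, mem_insert] at h1
          rw [mem_cls, mem_union]
          rcases h1 with (h1 | h1) | h1
          · rw [Prod.mk.injEq] at h1
            exact absurd (h1.1 ▸ hv.2) hxC
          · exact Or.inl h1
          · exact Or.inr h1
        have h1 := hC2 (B ∪ C) (mem_powerset.2 (union_subset hBsub hC1))
        have h2 := hsub B C
        have h3 : ((B ∪ C).card : ℝ) + ((B ∩ C).card : ℝ) = (B.card : ℝ) + (C.card : ℝ) := by
          exact_mod_cast card_union_add_card_inter B C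
        nlinarith
      · refine hσ2 k' B fun v hv => ?_
        have h1 := mem_cls.1 (hB hv)
        rw [mem_union, mem_insert] at h1
        rw [mem_cls, mem_union]
        rcases h1 with (h1 | h1) | h1
        · rw [Prod.mk.injEq] at h1
          exact absurd ⟨h1.1 ▸ hv, h1.2⟩ hxB
        · exact Or.inl h1
        · exact Or.inr h1
    · intro p hp
      rw [mem_union, mem_insert] at hp
      rcases hp with (h1 | h1) | h1
      · rw [h1]
        exact hPI hxP
      · exact hσ3 p (mem_union_left D h1)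
      · exact hσ3 p (mem_union_right σ h1))
  refine ⟨χ, fun k B hB => hχ k B fun v hv => ?_⟩
  rw [mem_cls, mem_gr]
  exact ⟨mem_univ _, (hB v hv).symm⟩

end Pool.Agent.Helper51.TH
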